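import Pool.Agent.N71.RP.Stm

/-!
# Nonnegativity of the coefficients
-/

set_option autoImplicit false

namespace Pool.Agent.N885.RP

open Finset Pool.Agent.N71.RP

/-- completely multiplicative with values `0, 1, -1` -/
structure CM (f : ℕ → ℝ) : Prop where
  one : f 1 = 1
  mul : ∀ a b : ℕ, a ≠ 0 → b ≠ 0 → f (a * b) = f a * f b
  val : ∀ n : ℕ, f n = 0 ∨ f n = 1 ∨ f n = -1

theorem CM.const : CM (fun _ => 1) := ⟨rfl, fun _ _ _ _ => by simp, fun _ => by simp⟩

theorem CM.prod {f g : ℕ → ℝ} (hf : CM f) (hg : CM g) : CM (fun n => f n * g n) := by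
  refine ⟨by simp [hf.one, hg.one], fun a b ha hb => ?_, fun n => ?_⟩
  · rw [hf.mul a b ha hb, hg.mul a b ha hb]; ring
  · rcases hf.val n with h1 | h1 | h1 <;> rcases hg.val n with h2 | h2 | h2 <;> simp [h1, h2]

theorem CM.pow {f : ℕ → ℝ} (hf : CM f) {p : ℕ} (hp : p ≠ 0) (k : ℕ) : f (p ^ k) = f p ^ k := by
  induction k with
  | zero => simp [hf.one]
  | succ k ih => rw [pow_succ, hf.mul _ _ (pow_ne_zero k hp) hp, ih, pow_succ]

/-- the arithmetic function -/
noncomputable def af (f : ℕ → ℝ) : ArithmeticFunction ℝ := ⟨fun n => if n = 0 then 0 else f n, by simp⟩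

theorem af_apply {f : ℕ → ℝ} {n : ℕ} (hn : n ≠ 0) : af f n = f n := by
  show (if n = 0 then 0 else f n) = f n
  rw [if_neg hn]

theorem CM.mult {f : ℕ → ℝ} (hf : CM f) : (af f).IsMultiplicative := by
  refine ⟨by rw [af_apply one_ne_zero, hf.one], ?_⟩
  intro m n _
  rcases Nat.eq_zero_or_pos m with h | h
  · subst h; simp
  rcases Nat.eq_zero_or_pos n with h' | h'
  · subst h'; simp
  rw [af_apply (by positivity), af_apply h.ne', af_apply h'.ne', hf.mul m n h.ne' h'.ne']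

theorem cv_eq (f h : ℕ → ℝ) (n : ℕ) : cv f h n = (af f * af h) n := by
  rw [ArithmeticFunction.mul_apply]
  unfold cv
  rw [← Nat.sum_divisorsAntidiagonal (fun a b => f a * h b)]
  apply Finset.sum_congr rfl
  intro x hx
  have h1 := Nat.mem_divisorsAntidiagonal.1 hx
  have h2 : x.1 ≠ 0 := fun h => h1.2 (by rw [← h1.1, h, zero_mul])
  have h3 : x.2 ≠ 0 := fun h => h1.2 (by rw [← h1.1, h, mul_zero])
  rw [af_apply h2, af_apply h3]

theorem af_cv (f h : ℕ → ℝ) : af (cv f h) = af f * af h := by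
  ext n
  rcases Nat.eq_zero_or_pos n with h0 | h0
  · subst h0; simp
  · rw [af_apply h0.ne', cv_eq]

theorem cv_pow (f h : ℕ → ℝ) {p : ℕ} (hp : p.Prime) (k : ℕ) :
    cv f h (p ^ k) = ∑ i ∈ range (k + 1), f (p ^ i) * h (p ^ (k - i)) := by
  unfold cv
  rw [Nat.divisors_prime_pow hp, Finset.sum_map]
  apply Finset.sum_congr rfl
  intro i hi
  rw [Finset.mem_range] at hi
  simp only [Function.Embedding.coeFn_mk]
  rw [Nat.pow_div (by omega) hp.pos]

theorem nonneg_of_pow {g : ArithmeticFunction ℝ} (hg : g.IsMultiplicative)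
    (h : ∀ p k : ℕ, p.Prime → 0 ≤ g (p ^ k)) (n : ℕ) : 0 ≤ g n := by
  rcases Nat.eq_zero_or_pos n with h0 | h0
  · subst h0; simp
  · rw [hg.multiplicative_factorization g h0.ne', Finsupp.prod]
    apply Finset.prod_nonneg
    intro p hp
    exact h p _ (Nat.prime_of_mem_primeFactors (by simpa using hp))

/-- `∑_{l ≤ i} e ^ l` -/
noncomputable def RR (e : ℝ) (i : ℕ) : ℝ := ∑ l ∈ range (i + 1), e ^ l

theorem RR_nonneg {e : ℝ} (he : e = 0 ∨ e = 1 ∨ e = -1) (i : ℕ) : 0 ≤ RR e i := by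
  unfold RR
  rcases he with h | h | h
  · rw [h]; positivity
  · rw [h]; positivity
  · rw [h, neg_one_geom_sum]; split_ifs <;> norm_num

theorem sumU (n : ℕ) : ∑ i ∈ range n, (-1 : ℝ) ^ i * (i + 1) =
    (1 - (-1) ^ n * (2 * n + 1)) / 4 := by
  induction n with
  | zero => simp
  | succ n ih => rw [Finset.sum_range_succ, ih, pow_succ]; push_cast; ring

theorem sumV (n : ℕ) : ∑ i ∈ range n, (-1 : ℝ) ^ i * ((i + 1) * i) =
    -((-1) ^ n * (n : ℝ) ^ 2) / 2 + ((-1) ^ n - 1) / 4 := by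
  induction n with
  | zero => simp
  | succ n ih => rw [Finset.sum_range_succ, ih, pow_succ]; push_cast; ring

theorem core {e s : ℝ} (he : e = 0 ∨ e = 1 ∨ e = -1) (hs : s = 0 ∨ s = 1 ∨ s = -1) (k : ℕ) :
    0 ≤ ∑ i ∈ range (k + 1), s ^ i * RR e i * RR e (k - i) := by
  have hR := RR_nonneg he
  rcases hs with h | h | h
  · apply Finset.sum_nonneg
    intro i _
    rw [h]
    exact mul_nonneg (mul_nonneg (pow_nonneg le_rfl _) (hR _)) (hR _)
  · apply Finset.sum_nonneg
    intro i _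
    rw [h]
    exact mul_nonneg (mul_nonneg (pow_nonneg zero_le_one _) (hR _)) (hR _)
  · subst h
    rcases he with h | h | h
    · have h1 : ∀ i, RR e i = 1 := by
        intro i
        unfold RR
        rw [h, zero_geom_sum, if_neg (Nat.succ_ne_zero i)]
      simp only [h1, mul_one]
      rw [neg_one_geom_sum]
      split_ifs <;> norm_num
    · have h1 : ∀ i, RR e i = i + 1 := by
        intro i
        unfold RR
        rw [h, one_geom_sum]
        push_cast; ring
      have h2 : ∑ i ∈ range (k + 1), (-1 : ℝ) ^ i * RR e i * RR e (k - i) =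
          (k + 1) * ∑ i ∈ range (k + 1), (-1 : ℝ) ^ i * (i + 1) -
            ∑ i ∈ range (k + 1), (-1 : ℝ) ^ i * ((i + 1) * i) := by
        rw [Finset.mul_sum, ← Finset.sum_sub_distrib]
        apply Finset.sum_congr rfl
        intro i hi
        rw [Finset.mem_range] at hi
        rw [h1, h1, Nat.cast_sub (by omega)]
        ring
      rw [h2, sumU, sumV]
      have h3 : (-1 : ℝ) ^ (k + 1) ≤ 1 := by
        rcases neg_one_pow_eq_or ℝ (k + 1) with h | h <;> rw [h] <;> norm_num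
      have h4 : ((k : ℝ) + 1) * ((1 - (-1) ^ (k + 1) * (2 * ((k + 1 : ℕ) : ℝ) + 1)) / 4) -
          (-((-1) ^ (k + 1) * ((k + 1 : ℕ) : ℝ) ^ 2) / 2 + ((-1) ^ (k + 1) - 1) / 4) =
          ((k : ℝ) + 2) * (1 - (-1) ^ (k + 1)) / 4 := by
        push_cast; ring
      rw [h4]
      have h5 : 0 ≤ 1 - (-1 : ℝ) ^ (k + 1) := by linarith
      positivity
    · apply Finset.sum_nonneg
      intro i _
      refine mul_nonneg ?_ (hR _)
      have h1 : RR e i = if Even (i + 1) then 0 else 1 := by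
        unfold RR
        rw [h, neg_one_geom_sum]
      rw [h1]
      split_ifs with h2
      · simp
      · have h3 : Even i := by
          by_contra h4
          exact h2 (Nat.not_even_iff_odd.1 h4).add_one
        rw [h3.neg_one_pow]; norm_num

theorem r2_pow {f : ℕ → ℝ} (hf : CM f) {p : ℕ} (hp : p.Prime) (k : ℕ) :
    r2 f (p ^ k) = RR (f p) k := by
  unfold r2 RR
  rw [cv_pow _ _ hp]
  apply Finset.sum_congr rfl
  intro i _
  rw [hf.pow hp.ne_zero, mul_one]

theorem psi_pow {f₁ f₂ : ℕ → ℝ} (h₁ : CM f₁) (h₂ : CM f₂) {p : ℕ} (hp : p.Prime) (k : ℕ) :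
    cv f₂ (fun n => f₁ n * f₂ n) (p ^ k) = f₂ p ^ k * RR (f₁ p) k := by
  rw [cv_pow _ _ hp]
  unfold RR
  rw [← Finset.sum_flip, Finset.mul_sum]
  apply Finset.sum_congr rfl
  intro i hi
  rw [Finset.mem_range] at hi
  rw [Nat.sub_sub_self (by omega : i ≤ k)]
  rw [h₂.pow hp.ne_zero, h₂.pow hp.ne_zero, h₁.pow hp.ne_zero]
  have : f₂ p ^ k = f₂ p ^ i * f₂ p ^ (k - i) := by
    rw [← pow_add]; congr 1; omega
  rw [this]; ring

theorem t_POS : E_POS := by
  intro f₁ f₂ Q hc₁ hc₂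
  have h₁ : CM f₁ := ⟨hc₁.one, hc₁.mul, hc₁.val⟩
  have h₂ : CM f₂ := ⟨hc₂.one, hc₂.mul, hc₂.val⟩
  have m2 : (af (r2 f₁)).IsMultiplicative := by
    have : af (r2 f₁) = af f₁ * af (fun _ => 1) := af_cv _ _
    rw [this]
    exact h₁.mult.mul CM.const.mult
  have m4 : (af (r4 f₁ f₂)).IsMultiplicative := by
    have : af (r4 f₁ f₂) = (af f₂ * af (fun n => f₁ n * f₂ n)) * af (r2 f₁) := by
      rw [← af_cv, ← af_cv]; rfl
    rw [this]
    exact (h₂.mult.mul (h₁.prod h₂).mult).mul m2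
  have z2 : r2 f₁ 0 = 0 := by simp [r2, cv]
  have z4 : r4 f₁ f₂ 0 = 0 := by simp [r4, cv]
  refine ⟨fun n => ?_, fun n => ?_, ?_, ?_⟩
  · rcases Nat.eq_zero_or_pos n with h0 | h0
    · rw [h0, z2]
    · rw [← af_apply (f := r2 f₁) h0.ne']
      apply nonneg_of_pow m2
      intro p k hp
      rw [af_apply (pow_ne_zero k hp.ne_zero), r2_pow h₁ hp]
      exact RR_nonneg (h₁.val p) k
  · rcases Nat.eq_zero_or_pos n with h0 | h0
    · rw [h0, z4]
    · rw [← af_apply (f := r4 f₁ f₂) h0.ne']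
      apply nonneg_of_pow m4
      intro p k hp
      rw [af_apply (pow_ne_zero k hp.ne_zero)]
      unfold r4
      rw [cv_pow _ _ hp]
      have : ∀ i ∈ range (k + 1), cv f₂ (fun n => f₁ n * f₂ n) (p ^ i) * r2 f₁ (p ^ (k - i)) =
          f₂ p ^ i * RR (f₁ p) i * RR (f₁ p) (k - i) := by
        intro i _
        rw [psi_pow h₁ h₂ hp, r2_pow h₁ hp]
      rw [Finset.sum_congr rfl this]
      exact core (h₁.val p) (h₂.val p) k
  · rw [← af_apply (f := r2 f₁) one_ne_zero]; exact m2.1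
  · rw [← af_apply (f := r4 f₁ f₂) one_ne_zero]; exact m4.1

end Pool.Agent.N885.RP
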